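import Mathlib

/-!
# Dimensions of unions of cube boundaries with all side lengths

For every size cube packing `f : (0,1) → [0,1]^n` the set `G = ⋃ (t K + f(t))` satisfies
`dim_H G + upper box dim G ≥ 2 n - 1`.
-/

open MeasureTheory Set Filter Topology
open scoped ENNReal NNReal

namespace Pool.Agent.Results.MP_05d054_an.CubePacking

/-- `N_δ(E)`: the least number of sets of diameter at most `δ` that cover `E`. -/
noncomputable def coverNum {X : Type*} [PseudoMetricSpace X] (δ : ℝ) (E : Set X) : ℕ :=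
  sInf {k : ℕ | ∃ U : Fin k → Set X, E ⊆ ⋃ i, U i ∧ ∀ i, ∀ x ∈ U i, ∀ y ∈ U i, dist x y ≤ δ}

/-- The upper box-counting dimension `limsup_{δ → 0+} log N_δ(E) / log (1/δ)`. -/
noncomputable def upperBoxDim {X : Type*} [PseudoMetricSpace X] (E : Set X) : EReal :=
  limsup (fun δ : ℝ => ((Real.log (coverNum δ E) / Real.log (1 / δ) : ℝ) : EReal)) (𝓝[>] 0)

/-- `K = ∂[0,1]^n`: the union of the `(n-1)`-dimensional faces of the unit cube. -/
def cubeBoundary (n : ℕ) : Set (EuclideanSpace ℝ (Fin n)) :=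
  {x | (∀ i, 0 ≤ x i ∧ x i ≤ 1) ∧ ∃ i, x i = 0 ∨ x i = 1}

/-- `G = T(f) = ⋃_{t ∈ (0,1)} (t K + f(t))` (only the values `f t` with `0 < t < 1` matter). -/
def packing {n : ℕ} (f : ℝ → EuclideanSpace ℝ (Fin n)) : Set (EuclideanSpace ℝ (Fin n)) :=
  ⋃ t ∈ Ioo (0 : ℝ) 1, (fun x => t • x + f t) '' cubeBoundary n

/-! ### Covering numbers -/

section cover
variable {X : Type*} [PseudoMetricSpace X]

lemma coverNum_le_of_finset {ι : Type*} {δ : ℝ} {E : Set X} (s : Finset ι) (U : ι → Set X)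
    (h1 : E ⊆ ⋃ i ∈ s, U i) (h2 : ∀ i ∈ s, ∀ x ∈ U i, ∀ y ∈ U i, dist x y ≤ δ) :
    coverNum δ E ≤ s.card := by
  apply Nat.sInf_le
  refine ⟨fun j => U (s.equivFin.symm j), ?_, fun j => h2 _ (s.equivFin.symm j).2⟩
  intro x hx
  obtain ⟨i, hi, hxi⟩ := mem_iUnion₂.mp (h1 hx)
  refine mem_iUnion.mpr ⟨s.equivFin ⟨i, hi⟩, ?_⟩
  simpa using hxi

lemma exists_cover {δ : ℝ} {E : Set X}
    (h : ∃ k : ℕ, ∃ U : Fin k → Set X, E ⊆ ⋃ i, U i ∧ ∀ i, ∀ x ∈ U i, ∀ y ∈ U i, dist x y ≤ δ) :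
    ∃ U : Fin (coverNum δ E) → Set X, E ⊆ ⋃ i, U i ∧
      ∀ i, ∀ x ∈ U i, ∀ y ∈ U i, dist x y ≤ δ :=
  Nat.sInf_mem (s := {k : ℕ | ∃ U : Fin k → Set X, E ⊆ ⋃ i, U i ∧
    ∀ i, ∀ x ∈ U i, ∀ y ∈ U i, dist x y ≤ δ}) h

lemma exists_finite_cover [ProperSpace X] {δ : ℝ} (hδ : 0 < δ) {E : Set X}
    (hE : Bornology.IsBounded E) :
    ∃ k : ℕ, ∃ U : Fin k → Set X, E ⊆ ⋃ i, U i ∧ ∀ i, ∀ x ∈ U i, ∀ y ∈ U i, dist x y ≤ δ := by
  obtain ⟨t, -, htf, hcov⟩ := hE.isCompact_closure.finite_cover_balls (e := δ / 2) (by linarith)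
  set s := htf.toFinset with hs
  refine ⟨s.card, fun j => Metric.ball ((s.equivFin.symm j : s) : X) (δ / 2), ?_, ?_⟩
  · intro x hx
    obtain ⟨y, hy, hxy⟩ := mem_iUnion₂.mp (hcov (subset_closure hx))
    have hy' : y ∈ s := by rw [hs, Set.Finite.mem_toFinset]; exact hy
    refine mem_iUnion.mpr ⟨s.equivFin ⟨y, hy'⟩, ?_⟩
    simpa using hxy
  · intro j x hx y hy
    rw [Metric.mem_ball] at hx hy
    have := dist_triangle_right x y ((s.equivFin.symm j : s) : X)
    linarith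

end cover

/-! ### Slicing -/

/-- The point with first coordinate `a` and remaining coordinates `y`. -/
noncomputable def pt {m : ℕ} (a : ℝ) (y : Fin m → ℝ) : EuclideanSpace ℝ (Fin (m + 1)) :=
  WithLp.toLp 2 (Fin.cons a y)

lemma pt_zero {m : ℕ} (a : ℝ) (y : Fin m → ℝ) : (pt a y) 0 = a := by
  simp [pt]

lemma pt_succ {m : ℕ} (a : ℝ) (y : Fin m → ℝ) (i : Fin m) : (pt a y) i.succ = y i := by
  simp [pt]

lemma abs_coord_sub_le {n : ℕ} (x y : EuclideanSpace ℝ (Fin n)) (i : Fin n) :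
    |x i - y i| ≤ dist x y := by
  have h := PiLp.norm_apply_le (x - y) i
  rw [dist_eq_norm]
  simpa using h

lemma exists_box {m : ℕ} (W : Set (EuclideanSpace ℝ (Fin (m + 1)))) {ρ : ℝ} (hρ : 0 ≤ ρ)
    (hW : ∀ x ∈ W, ∀ y ∈ W, dist x y ≤ ρ) :
    ∃ B : Set (Fin m → ℝ), MeasurableSet B ∧ volume B ≤ ENNReal.ofReal ((2 * ρ) ^ m) ∧
      ∀ a y, pt a y ∈ W → y ∈ B := by
  rcases W.eq_empty_or_nonempty with rfl | ⟨w, hw⟩
  · exact ⟨∅, MeasurableSet.empty, by simp, fun a y h => h⟩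
  · refine ⟨Metric.closedBall (fun i => w i.succ) ρ, Metric.isClosed_closedBall.measurableSet,
      ?_, ?_⟩
    · rw [Real.volume_pi_closedBall _ hρ]
      simp
    · intro a y h
      rw [Metric.mem_closedBall, dist_pi_le_iff hρ]
      intro i
      rw [Real.dist_eq]
      have h1 := abs_coord_sub_le (pt a y) w i.succ
      rw [pt_succ] at h1
      exact h1.trans (hW _ h _ hw)

lemma slice_dist {m : ℕ} {W : Set (EuclideanSpace ℝ (Fin (m + 1)))} {ρ : ℝ}
    (hW : ∀ x ∈ W, ∀ y ∈ W, dist x y ≤ ρ) (y : Fin m → ℝ) :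
    ∀ a ∈ {a | pt a y ∈ W}, ∀ a' ∈ {a | pt a y ∈ W}, dist a a' ≤ ρ := by
  intro a ha a' ha'
  have h1 := abs_coord_sub_le (pt a y) (pt a' y) 0
  rw [pt_zero, pt_zero] at h1
  rw [Real.dist_eq]
  exact h1.trans (hW _ ha _ ha')

/-- Covering numbers of the base are controlled by those of the product. -/
lemma coverNum_slice {m : ℕ} {G : Set (EuclideanSpace ℝ (Fin (m + 1)))} {A : Set ℝ}
    {Q : Set (Fin m → ℝ)} (hQ : MeasurableSet Q) (hAQ : ∀ a ∈ A, ∀ y ∈ Q, pt a y ∈ G)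
    {δ : ℝ} (hδ : 0 < δ) (hG : Bornology.IsBounded G) :
    (coverNum δ A : ℝ≥0∞) * volume Q ≤ coverNum δ G * ENNReal.ofReal ((2 * δ) ^ m) := by
  classical
  obtain ⟨U, hU1, hU2⟩ := exists_cover (exists_finite_cover hδ hG)
  choose B hB1 hB2 hB3 using fun i => exists_box (U i) hδ.le (hU2 i)
  have key : ∀ y ∈ Q, (coverNum δ A : ℝ≥0∞) ≤ ∑ i, (B i).indicator (fun _ => (1 : ℝ≥0∞)) y := by
    intro y hy
    have h1 : coverNum δ A ≤ (Finset.univ.filter fun i => y ∈ B i).card := by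
      apply coverNum_le_of_finset _ (fun i => {a | pt a y ∈ U i})
      · intro a ha
        obtain ⟨i, hi⟩ := mem_iUnion.mp (hU1 (hAQ a ha y hy))
        refine mem_iUnion₂.mpr ⟨i, ?_, hi⟩
        rw [Finset.mem_filter]
        exact ⟨Finset.mem_univ _, hB3 i a y hi⟩
      · intro i _
        exact slice_dist (hU2 i) y
    calc (coverNum δ A : ℝ≥0∞) ≤ ((Finset.univ.filter fun i => y ∈ B i).card : ℝ≥0∞) := by
          exact_mod_cast h1
      _ = ∑ i, (B i).indicator (fun _ => (1 : ℝ≥0∞)) y := by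
          rw [Finset.card_filter]
          push_cast
          apply Finset.sum_congr rfl
          intro i _
          rw [indicator_apply]
  calc (coverNum δ A : ℝ≥0∞) * volume Q = ∫⁻ _ in Q, (coverNum δ A : ℝ≥0∞) := by
        rw [setLIntegral_const]
    _ ≤ ∫⁻ y in Q, ∑ i, (B i).indicator (fun _ => (1 : ℝ≥0∞)) y :=
        setLIntegral_mono' hQ key
    _ ≤ ∫⁻ y, ∑ i, (B i).indicator (fun _ => (1 : ℝ≥0∞)) y :=
        setLIntegral_le_lintegral _ _
    _ = ∑ i, volume (B i) := by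
        rw [lintegral_finsetSum _ (fun i _ => measurable_const.indicator (hB1 i))]
        apply Finset.sum_congr rfl
        intro i _
        rw [lintegral_indicator (hB1 i), setLIntegral_const, one_mul]
    _ ≤ ∑ _i : Fin (coverNum δ G), ENNReal.ofReal ((2 * δ) ^ m) :=
        Finset.sum_le_sum fun i _ => hB2 i
    _ = coverNum δ G * ENNReal.ofReal ((2 * δ) ^ m) := by
        rw [Finset.sum_const, Finset.card_univ, Fintype.card_fin, nsmul_eq_mul]

/-- A set of reals of diameter at most `2ρ` has small outer measure. -/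
lemma volume_le_of_dist {D : Set ℝ} {ρ : ℝ} (hD : ∀ x ∈ D, ∀ y ∈ D, |x - y| ≤ 2 * ρ) :
    volume D ≤ ENNReal.ofReal (4 * ρ) := by
  rcases D.eq_empty_or_nonempty with rfl | ⟨c, hc⟩
  · simp
  · calc volume D ≤ volume (Icc (c - 2 * ρ) (c + 2 * ρ)) := by
          apply measure_mono
          intro x hx
          have := abs_le.mp (hD x hx c hc)
          constructor <;> linarith
      _ = ENNReal.ofReal (4 * ρ) := by
          rw [Real.volume_Icc]
          congr 1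
          ring

/-- The difference set is controlled by a countable cover of the product. -/
lemma diff_bound {m : ℕ} {G : Set (EuclideanSpace ℝ (Fin (m + 1)))} {A : Set ℝ}
    {Q : Set (Fin m → ℝ)} (hQ : MeasurableSet Q) (hAQ : ∀ a ∈ A, ∀ y ∈ Q, pt a y ∈ G)
    {T : Set ℝ} (hT : ∀ t ∈ T, ∃ a ∈ A, ∃ a' ∈ A, t = a - a')
    (hA : Bornology.IsBounded A)
    (W : ℕ → Set (EuclideanSpace ℝ (Fin (m + 1)))) (hW : G ⊆ ⋃ n, W n)
    (ρ : ℕ → ℝ) (hρ : ∀ n, 0 < ρ n) (hWρ : ∀ n, ∀ x ∈ W n, ∀ y ∈ W n, dist x y ≤ ρ n) :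
    volume T * volume Q ≤
      ∑' n, (coverNum (ρ n) A : ℝ≥0∞) * ENNReal.ofReal (4 * ρ n) *
        ENNReal.ofReal ((2 * ρ n) ^ m) := by
  classical
  choose B hB1 hB2 hB3 using fun n => exists_box (W n) (hρ n).le (hWρ n)
  choose V hV1 hV2 using fun n => exists_cover (exists_finite_cover (hρ n) hA)
  have key : ∀ y ∈ Q, volume T ≤ ∑' n, (B n).indicator
      (fun _ => (coverNum (ρ n) A : ℝ≥0∞) * ENNReal.ofReal (4 * ρ n)) y := by
    intro y hy
    set D : (n : ℕ) → Fin (coverNum (ρ n) A) → Set ℝ := fun n j =>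
      {t | ∃ a a', pt a y ∈ W n ∧ a' ∈ V n j ∧ t = a - a'} with hD
    have h1 : T ⊆ ⋃ n, ⋃ j, D n j := by
      intro t ht
      obtain ⟨a, ha, a', ha', rfl⟩ := hT t ht
      obtain ⟨n, hn⟩ := mem_iUnion.mp (hW (hAQ a ha y hy))
      obtain ⟨j, hj⟩ := mem_iUnion.mp (hV1 n ha')
      exact mem_iUnion.mpr ⟨n, mem_iUnion.mpr ⟨j, a, a', hn, hj, rfl⟩⟩
    calc volume T ≤ volume (⋃ n, ⋃ j, D n j) := measure_mono h1
      _ ≤ ∑' n, volume (⋃ j, D n j) := measure_iUnion_le _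
      _ ≤ ∑' n, (B n).indicator
          (fun _ => (coverNum (ρ n) A : ℝ≥0∞) * ENNReal.ofReal (4 * ρ n)) y := by
          apply ENNReal.tsum_le_tsum
          intro n
          by_cases hyB : y ∈ B n
          · rw [indicator_of_mem hyB]
            calc volume (⋃ j, D n j) ≤ ∑ j, volume (D n j) := by
                  have := measure_iUnion_le (μ := volume) (D n)
                  rwa [tsum_fintype] at this
              _ ≤ ∑ _j : Fin (coverNum (ρ n) A), ENNReal.ofReal (4 * ρ n) := by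
                  apply Finset.sum_le_sum
                  intro j _
                  apply volume_le_of_dist
                  rintro _ ⟨a, a', h1, h2, rfl⟩ _ ⟨b, b', h3, h4, rfl⟩
                  have e1 := slice_dist (hWρ n) y a h1 b h3
                  have e2 := hV2 n j _ h2 _ h4
                  rw [Real.dist_eq] at e1 e2
                  calc |a - a' - (b - b')| = |(a - b) - (a' - b')| := by congr 1; ring
                    _ ≤ |a - b| + |a' - b'| := abs_sub _ _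
                    _ ≤ 2 * ρ n := by linarith
              _ = (coverNum (ρ n) A : ℝ≥0∞) * ENNReal.ofReal (4 * ρ n) := by
                  rw [Finset.sum_const, Finset.card_univ, Fintype.card_fin, nsmul_eq_mul]
          · rw [indicator_of_notMem hyB]
            have h2 : (⋃ j, D n j) = ∅ := by
              rw [iUnion_eq_empty]
              intro j
              rw [eq_empty_iff_forall_notMem]
              rintro t ⟨a, a', h3, -, -⟩
              exact hyB (hB3 n a y h3)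
            rw [h2, measure_empty]
  calc volume T * volume Q = ∫⁻ _ in Q, volume T := by rw [setLIntegral_const]
    _ ≤ ∫⁻ y in Q, ∑' n, (B n).indicator
          (fun _ => (coverNum (ρ n) A : ℝ≥0∞) * ENNReal.ofReal (4 * ρ n)) y :=
        setLIntegral_mono' hQ key
    _ ≤ ∫⁻ y, ∑' n, (B n).indicator
          (fun _ => (coverNum (ρ n) A : ℝ≥0∞) * ENNReal.ofReal (4 * ρ n)) y :=
        setLIntegral_le_lintegral _ _
    _ = ∑' n, (coverNum (ρ n) A : ℝ≥0∞) * ENNReal.ofReal (4 * ρ n) * volume (B n) := by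
        rw [lintegral_tsum fun n => (measurable_const.indicator (hB1 n)).aemeasurable]
        congr 1
        funext n
        rw [lintegral_indicator (hB1 n), setLIntegral_const]
    _ ≤ _ := by
        apply ENNReal.tsum_le_tsum
        intro n
        gcongr
        exact hB2 n


/-- The core: combine a small Hausdorff cover with the box-counting bound. -/
lemma core {m : ℕ} {G : Set (EuclideanSpace ℝ (Fin (m + 1)))} {A : Set ℝ}
    {Q : Set (Fin m → ℝ)} (hQ : MeasurableSet Q) (hQ0 : volume Q ≠ 0)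
    (hAQ : ∀ a ∈ A, ∀ y ∈ Q, pt a y ∈ G)
    {T : Set ℝ} (hT : ∀ t ∈ T, ∃ a ∈ A, ∃ a' ∈ A, t = a - a') (hT0 : volume T ≠ 0)
    (hA : Bornology.IsBounded A) (hG : Bornology.IsBounded G) {b δ₀ : ℝ} (hδ₀ : 0 < δ₀)
    (hbox : ∀ δ, 0 < δ → δ < δ₀ → (coverNum δ G : ℝ) ≤ δ ^ (-b))
    (hs0 : 0 < 2 * (m : ℝ) + 1 - b)
    (hH : μH[2 * (m : ℝ) + 1 - b] G = 0) : False := by
  set s' : ℝ := 2 * (m : ℝ) + 1 - b with hs'
  -- the bound for one term
  have hterm : ∀ ρ : ℝ, 0 < ρ → ρ < δ₀ →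
      (coverNum ρ A : ℝ≥0∞) * ENNReal.ofReal (4 * ρ) * ENNReal.ofReal ((2 * ρ) ^ m) * volume Q ≤
        ENNReal.ofReal (4 ^ (m + 1)) * ENNReal.ofReal (ρ ^ s') := by
    intro ρ h0 h1
    have h2 := coverNum_slice hQ hAQ h0 hG
    have h3 : (coverNum ρ G : ℝ≥0∞) ≤ ENNReal.ofReal (ρ ^ (-b)) := by
      have h4 := ENNReal.ofReal_le_ofReal (hbox ρ h0 h1)
      rwa [ENNReal.ofReal_natCast] at h4
    calc (coverNum ρ A : ℝ≥0∞) * ENNReal.ofReal (4 * ρ) * ENNReal.ofReal ((2 * ρ) ^ m) * volume Q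
        = ((coverNum ρ A : ℝ≥0∞) * volume Q) *
            (ENNReal.ofReal (4 * ρ) * ENNReal.ofReal ((2 * ρ) ^ m)) := by ring
      _ ≤ (coverNum ρ G * ENNReal.ofReal ((2 * ρ) ^ m)) *
            (ENNReal.ofReal (4 * ρ) * ENNReal.ofReal ((2 * ρ) ^ m)) := by gcongr
      _ ≤ (ENNReal.ofReal (ρ ^ (-b)) * ENNReal.ofReal ((2 * ρ) ^ m)) *
            (ENNReal.ofReal (4 * ρ) * ENNReal.ofReal ((2 * ρ) ^ m)) := by gcongr
      _ = ENNReal.ofReal (4 ^ (m + 1)) * ENNReal.ofReal (ρ ^ s') := by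
          rw [← ENNReal.ofReal_mul (by positivity), ← ENNReal.ofReal_mul (by positivity),
            ← ENNReal.ofReal_mul (by positivity), ← ENNReal.ofReal_mul (by positivity)]
          congr 1
          have e1 : ρ ^ s' = ρ ^ (-b) * ρ ^ (2 * m + 1) := by
            rw [← Real.rpow_natCast, ← Real.rpow_add h0]
            congr 1
            rw [hs']
            push_cast
            ring
          rw [e1, mul_pow, pow_succ 4 m]
          have e2 : (4 : ℝ) ^ m = 2 ^ m * 2 ^ m := by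
            rw [← mul_pow]
            norm_num
          rw [e2]
          ring
  -- covers with small sums
  have hcov : ∀ ε : ℝ, 0 < ε → ε < δ₀ ^ s' - (δ₀ / 2) ^ s' →
      volume T * volume Q * volume Q ≤
        ENNReal.ofReal (4 ^ (m + 1)) * (ENNReal.ofReal ε + ENNReal.ofReal ε) := by
    intro ε hε hε2
    rw [Measure.hausdorffMeasure_apply] at hH
    have h1 := ENNReal.iSup_eq_zero.mp hH (ENNReal.ofReal (δ₀ / 2))
    have h2 := ENNReal.iSup_eq_zero.mp h1 (by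
      rw [ENNReal.ofReal_pos]; linarith)
    have h3 : (⨅ (t : ℕ → Set (EuclideanSpace ℝ (Fin (m + 1)))) (_ : G ⊆ ⋃ n, t n)
        (_ : ∀ n, Metric.ediam (t n) ≤ ENNReal.ofReal (δ₀ / 2)),
        ∑' n, ⨆ _ : (t n).Nonempty, Metric.ediam (t n) ^ s') < ENNReal.ofReal ε := by
      rw [h2]
      exact ENNReal.ofReal_pos.mpr hε
    obtain ⟨W, h4⟩ := iInf_lt_iff.mp h3
    obtain ⟨hW1, h5⟩ := iInf_lt_iff.mp h4
    obtain ⟨hW2, h6⟩ := iInf_lt_iff.mp h5
    have hfin : ∀ n, Metric.ediam (W n) ≠ ∞ := fun n =>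
      ne_top_of_le_ne_top ENNReal.ofReal_ne_top (hW2 n)
    set r : ℕ → ℝ := fun n => (Metric.ediam (W n)).toReal with hr
    have hr0 : ∀ n, 0 ≤ r n := fun n => ENNReal.toReal_nonneg
    have hr1 : ∀ n, r n ≤ δ₀ / 2 := fun n =>
      ENNReal.toReal_le_of_le_ofReal (by linarith) (hW2 n)
    have hrs : ∀ n, ENNReal.ofReal (r n ^ s') ≤ ⨆ _ : (W n).Nonempty, Metric.ediam (W n) ^ s' := by
      intro n
      rcases (W n).eq_empty_or_nonempty with h | h
      · have : r n = 0 := by simp [hr, h]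
        rw [this, Real.zero_rpow hs0.ne', ENNReal.ofReal_zero]
        exact bot_le
      · rw [ciSup_pos h, ← ENNReal.ofReal_rpow_of_nonneg (hr0 n) hs0.le, hr,
          ENNReal.ofReal_toReal (hfin n)]
    set e : ℕ → ℝ := fun n => ε * (1 / 2) ^ (n + 1) with he
    have he0 : ∀ n, 0 < e n := fun n => by positivity
    have hele : ∀ n, e n ≤ ε := fun n => by
      have : ((1 : ℝ) / 2) ^ (n + 1) ≤ 1 := pow_le_one₀ (by norm_num) (by norm_num)
      calc e n = ε * (1 / 2) ^ (n + 1) := rfl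
        _ ≤ ε * 1 := by gcongr
        _ = ε := mul_one ε
    set ρ : ℕ → ℝ := fun n => (r n ^ s' + e n) ^ (1 / s') with hρ
    have hbase : ∀ n, 0 < r n ^ s' + e n := fun n =>
      add_pos_of_nonneg_of_pos (Real.rpow_nonneg (hr0 n) _) (he0 n)
    have hρ0 : ∀ n, 0 < ρ n := fun n => Real.rpow_pos_of_pos (hbase n) _
    have hρs : ∀ n, ρ n ^ s' = r n ^ s' + e n := fun n => by
      rw [hρ]
      simp only
      rw [← Real.rpow_mul (hbase n).le, one_div, inv_mul_cancel₀ hs0.ne', Real.rpow_one]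
    have hrρ : ∀ n, r n ≤ ρ n := fun n => by
      rw [← Real.rpow_le_rpow_iff (hr0 n) (hρ0 n).le hs0, hρs]
      linarith [he0 n]
    have hρδ : ∀ n, ρ n < δ₀ := fun n => by
      rw [← Real.rpow_lt_rpow_iff (hρ0 n).le hδ₀.le hs0, hρs]
      have h7 : r n ^ s' ≤ (δ₀ / 2) ^ s' := Real.rpow_le_rpow (hr0 n) (hr1 n) hs0.le
      linarith [hele n]
    have hWρ : ∀ n, ∀ x ∈ W n, ∀ y ∈ W n, dist x y ≤ ρ n := by
      intro n x hx y hy
      have h7 : edist x y ≤ Metric.ediam (W n) := Metric.edist_le_ediam_of_mem hx hy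
      have h8 : dist x y ≤ r n := by
        rw [hr]
        simp only
        rw [dist_edist]
        exact ENNReal.toReal_mono (hfin n) h7
      exact h8.trans (hrρ n)
    have hd := diff_bound hQ hAQ hT hA W hW1 ρ hρ0 hWρ
    have hsum : ∑' n, ENNReal.ofReal (ρ n ^ s') ≤ ENNReal.ofReal ε + ENNReal.ofReal ε := by
      calc ∑' n, ENNReal.ofReal (ρ n ^ s')
          = ∑' n, (ENNReal.ofReal (r n ^ s') + ENNReal.ofReal (e n)) := by
            congr 1
            funext n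
            rw [hρs, ENNReal.ofReal_add (Real.rpow_nonneg (hr0 n) _) (he0 n).le]
        _ = ∑' n, ENNReal.ofReal (r n ^ s') + ∑' n, ENNReal.ofReal (e n) := ENNReal.tsum_add
        _ ≤ ENNReal.ofReal ε + ENNReal.ofReal ε := by
            apply add_le_add
            · exact (ENNReal.tsum_le_tsum hrs).trans h6.le
            · have hsumm : Summable e := by
                have := (summable_geometric_of_lt_one (r := (1 / 2 : ℝ)) (by norm_num)
                  (by norm_num))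
                exact ((summable_nat_add_iff 1).mpr this).mul_left ε
              rw [← ENNReal.ofReal_tsum_of_nonneg (fun n => (he0 n).le) hsumm]
              apply ENNReal.ofReal_le_ofReal
              rw [he, tsum_mul_left]
              simp only [pow_succ]
              rw [tsum_mul_right, tsum_geometric_of_lt_one (by norm_num) (by norm_num)]
              norm_num
    calc volume T * volume Q * volume Q
        ≤ (∑' n, (coverNum (ρ n) A : ℝ≥0∞) * ENNReal.ofReal (4 * ρ n) *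
            ENNReal.ofReal ((2 * ρ n) ^ m)) * volume Q := by gcongr
      _ = ∑' n, (coverNum (ρ n) A : ℝ≥0∞) * ENNReal.ofReal (4 * ρ n) *
            ENNReal.ofReal ((2 * ρ n) ^ m) * volume Q := ENNReal.tsum_mul_right.symm
      _ ≤ ∑' n, ENNReal.ofReal (4 ^ (m + 1)) * ENNReal.ofReal (ρ n ^ s') :=
          ENNReal.tsum_le_tsum fun n => hterm (ρ n) (hρ0 n) (hρδ n)
      _ = ENNReal.ofReal (4 ^ (m + 1)) * ∑' n, ENNReal.ofReal (ρ n ^ s') := ENNReal.tsum_mul_left
      _ ≤ _ := by gcongr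
  -- conclude
  have hpos : volume T * volume Q * volume Q ≠ 0 := by
    simp [hT0, hQ0]
  have hgap : 0 < δ₀ ^ s' - (δ₀ / 2) ^ s' := by
    have := Real.rpow_lt_rpow (by linarith : (0 : ℝ) ≤ δ₀ / 2) (by linarith : δ₀ / 2 < δ₀) hs0
    linarith
  have hlim : Tendsto (fun ε : ℝ => ENNReal.ofReal (4 ^ (m + 1)) *
      (ENNReal.ofReal ε + ENNReal.ofReal ε)) (𝓝[>] 0) (𝓝 0) := by
    have h1 : Tendsto (fun ε : ℝ => ENNReal.ofReal ε) (𝓝[>] 0) (𝓝 0) := by
      have := (ENNReal.continuous_ofReal.tendsto (0 : ℝ)).mono_left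
        (nhdsWithin_le_nhds (s := Ioi (0 : ℝ)))
      rwa [ENNReal.ofReal_zero] at this
    have h2 := ENNReal.Tendsto.const_mul (a := ENNReal.ofReal (4 ^ (m + 1))) (h1.add h1)
      (Or.inr ENNReal.ofReal_ne_top)
    simpa using h2
  have hle : volume T * volume Q * volume Q ≤ 0 := by
    apply ge_of_tendsto hlim
    have h3 : ∀ᶠ ε : ℝ in 𝓝[>] 0, ε ∈ Ioo 0 (δ₀ ^ s' - (δ₀ / 2) ^ s') :=
      Ioo_mem_nhdsGT hgap
    filter_upwards [h3] with ε hε
    exact hcov ε hε.1 hε.2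
  exact hpos (le_antisymm hle bot_le)


/-- From the upper box dimension to a bound for the covering numbers. -/
lemma box_bound {X : Type*} [PseudoMetricSpace X] {G : Set X} {b : ℝ}
    (h : upperBoxDim G < (b : EReal)) :
    ∃ δ₀ : ℝ, 0 < δ₀ ∧ ∀ δ, 0 < δ → δ < δ₀ → (coverNum δ G : ℝ) ≤ δ ^ (-b) := by
  have h1 := Filter.eventually_lt_of_limsup_lt h
  rw [eventually_nhdsWithin_iff, Metric.eventually_nhds_iff] at h1
  obtain ⟨ε, hε, h2⟩ := h1
  refine ⟨min ε 1, lt_min hε one_pos, fun δ h0 hlt => ?_⟩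
  have hδε : δ < ε := lt_of_lt_of_le hlt (min_le_left _ _)
  have hδ1 : δ < 1 := lt_of_lt_of_le hlt (min_le_right _ _)
  have h3 := h2 (y := δ) (by rw [Real.dist_eq, sub_zero, abs_of_pos h0]; exact hδε) h0
  rw [EReal.coe_lt_coe_iff] at h3
  have hlog : 0 < Real.log (1 / δ) := Real.log_pos (by rw [lt_div_iff₀ h0]; linarith)
  rw [div_lt_iff₀ hlog] at h3
  rcases Nat.eq_zero_or_pos (coverNum δ G) with h4 | h4
  · rw [h4, Nat.cast_zero]
    exact Real.rpow_nonneg h0.le _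
  · have h5 : (0 : ℝ) < coverNum δ G := by exact_mod_cast h4
    rw [← Real.exp_log h5, Real.rpow_def_of_pos h0]
    apply Real.exp_le_exp.mpr
    rw [one_div, Real.log_inv] at h3
    linarith

lemma packing_coord {n : ℕ} {f : ℝ → EuclideanSpace ℝ (Fin n)}
    (hf : ∀ t ∈ Ioo (0 : ℝ) 1, ∀ i, 0 ≤ f t i ∧ f t i ≤ 1) {x : EuclideanSpace ℝ (Fin n)}
    (hx : x ∈ packing f) (i : Fin n) : 0 ≤ x i ∧ x i ≤ 2 := by
  obtain ⟨t, ht, z, hz, rfl⟩ := by
    simpa only [packing, mem_iUnion₂] using hx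
  obtain ⟨h1, h2⟩ := hf t ht i
  obtain ⟨h3, h4⟩ := hz.1 i
  obtain ⟨h5, h6⟩ := ht
  have e : (t • z + f t) i = t * z i + f t i := by simp
  simp only [e]
  constructor
  · positivity
  · nlinarith

lemma packing_bounded {n : ℕ} {f : ℝ → EuclideanSpace ℝ (Fin n)}
    (hf : ∀ t ∈ Ioo (0 : ℝ) 1, ∀ i, 0 ≤ f t i ∧ f t i ≤ 1) :
    Bornology.IsBounded (packing f) := by
  rw [Metric.isBounded_iff_subset_closedBall 0]
  refine ⟨Real.sqrt (∑ _i : Fin n, 4), fun x hx => ?_⟩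
  rw [mem_closedBall_zero_iff, EuclideanSpace.norm_eq]
  apply Real.sqrt_le_sqrt
  apply Finset.sum_le_sum
  intro i _
  obtain ⟨h1, h2⟩ := packing_coord hf hx i
  rw [Real.norm_eq_abs, sq_abs]
  nlinarith

/-- Membership in the packing. -/
lemma mem_packing {m : ℕ} {f : ℝ → EuclideanSpace ℝ (Fin (m + 1))} {t : ℝ}
    (ht : t ∈ Ioo (0 : ℝ) 1) {a : ℝ} {y : Fin m → ℝ}
    (ha : a = f t 0 ∨ a = f t 0 + t)
    (hy : ∀ i : Fin m, f t i.succ ≤ y i ∧ y i ≤ f t i.succ + t) : pt a y ∈ packing f := by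
  have ht0 : 0 < t := ht.1
  refine mem_iUnion₂.mpr ⟨t, ht, t⁻¹ • (pt a y - f t), ⟨?_, 0, ?_⟩, ?_⟩
  · intro i
    refine Fin.cases ?_ (fun j => ?_) i
    · have e : (t⁻¹ • (pt a y - f t)) 0 = t⁻¹ * (a - f t 0) := by simp [pt_zero]
      rw [e]
      rcases ha with h | h
      · rw [h]
        simp
      · rw [h]
        have : t⁻¹ * (f t 0 + t - f t 0) = 1 := by field_simp; ring
        rw [this]
        norm_num
    · have e : (t⁻¹ • (pt a y - f t)) j.succ = t⁻¹ * (y j - f t j.succ) := by simp [pt_succ]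
      rw [e]
      obtain ⟨h1, h2⟩ := hy j
      constructor
      · have : 0 ≤ y j - f t j.succ := by linarith
        positivity
      · rw [inv_mul_le_iff₀ ht0]
        linarith
  · have e : (t⁻¹ • (pt a y - f t)) 0 = t⁻¹ * (a - f t 0) := by simp [pt_zero]
    rw [e]
    rcases ha with h | h
    · left
      rw [h]
      simp
    · right
      rw [h]
      field_simp
      ring
  · simp only
    rw [smul_smul, mul_inv_cancel₀ ht0.ne', one_smul, sub_add_cancel]

/-- **For every `n ≥ 1` and every size cube packing `f`, `G = ⋃_{t ∈ (0,1)} (t K + f(t))`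
satisfies `dim_H G + upper box dim G ≥ 2 n - 1`.** -/
theorem result (n : ℕ) (hn : 1 ≤ n) (f : ℝ → EuclideanSpace ℝ (Fin n))
    (hf : ∀ t ∈ Ioo (0 : ℝ) 1, ∀ i, 0 ≤ f t i ∧ f t i ≤ 1) :
    ((2 * n - 1 : ℝ) : EReal) ≤ (dimH (packing f) : EReal) + upperBoxDim (packing f) := by
  classical
  obtain ⟨m, rfl⟩ : ∃ m, n = m + 1 := ⟨n - 1, by omega⟩
  set G := packing f with hGdef
  have hG : Bornology.IsBounded G := packing_bounded hf
  have hDtop : dimH G ≠ ∞ := by
    have h1 : dimH G ≤ dimH (univ : Set (EuclideanSpace ℝ (Fin (m + 1)))) :=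
      dimH_mono (subset_univ _)
    rw [Real.dimH_univ_eq_finrank] at h1
    exact ne_top_of_le_ne_top (ENNReal.natCast_ne_top _) h1
  -- the partition
  set T : (Fin m → Fin 5) → Set ℝ := fun κ =>
    {t | t ∈ Ioo (1 / 2 : ℝ) 1 ∧ ∀ i : Fin m, ⌈4 * f t i.succ⌉₊ = (κ i : ℕ)} with hTdef
  have hTcov : Ioo (1 / 2 : ℝ) 1 ⊆ ⋃ κ, T κ := by
    intro t ht
    have ht' : t ∈ Ioo (0 : ℝ) 1 := ⟨by linarith [ht.1], ht.2⟩
    have hlt : ∀ i : Fin m, ⌈4 * f t i.succ⌉₊ < 5 := by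
      intro i
      have h1 := (hf t ht' i.succ).2
      have h2 : ⌈4 * f t i.succ⌉₊ ≤ 4 := by
        apply Nat.ceil_le.mpr
        push_cast
        linarith
      omega
    exact mem_iUnion.mpr ⟨fun i => ⟨⌈4 * f t i.succ⌉₊, hlt i⟩, ht, fun i => rfl⟩
  obtain ⟨κ, hκ⟩ : ∃ κ, volume (T κ) ≠ 0 := by
    by_contra hcon
    push Not at hcon
    have h1 : volume (⋃ κ, T κ) = 0 := measure_iUnion_null hcon
    have h2 : volume (Ioo (1 / 2 : ℝ) 1) = 0 := measure_mono_null hTcov h1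
    rw [Real.volume_Ioo, ENNReal.ofReal_eq_zero] at h2
    norm_num at h2
  set A : Set ℝ := {a | ∃ t ∈ T κ, a = f t 0 ∨ a = f t 0 + t} with hAdef
  set Q : Set (Fin m → ℝ) := Set.pi univ fun i => Icc ((κ i : ℕ) / 4 : ℝ) (((κ i : ℕ) + 1) / 4)
    with hQdef
  have hQm : MeasurableSet Q := MeasurableSet.univ_pi fun i => measurableSet_Icc
  have hQ0 : volume Q ≠ 0 := by
    rw [hQdef, volume_pi, Measure.pi_pi, Finset.prod_ne_zero_iff]
    intro i _
    rw [Real.volume_Icc, Ne, ENNReal.ofReal_eq_zero, not_le]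
    linarith
  have hAQ : ∀ a ∈ A, ∀ y ∈ Q, pt a y ∈ G := by
    rintro a ⟨t, ht, ha⟩ y hy
    have ht' : t ∈ Ioo (0 : ℝ) 1 := ⟨by linarith [ht.1.1], ht.1.2⟩
    apply mem_packing ht' ha
    intro i
    have h1 := ht.2 i
    have h2 := hy i (mem_univ i)
    have h3 := (hf t ht' i.succ).1
    have h4 : 4 * f t i.succ ≤ (⌈4 * f t i.succ⌉₊ : ℝ) := Nat.le_ceil _
    have h5 : (⌈4 * f t i.succ⌉₊ : ℝ) < 4 * f t i.succ + 1 := Nat.ceil_lt_add_one (by linarith)
    rw [h1] at h4 h5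
    obtain ⟨h6, h7⟩ := h2
    have h8 := ht.1.1
    constructor <;> linarith
  have hTA : ∀ t ∈ T κ, ∃ a ∈ A, ∃ a' ∈ A, t = a - a' := by
    intro t ht
    exact ⟨f t 0 + t, ⟨t, ht, Or.inr rfl⟩, f t 0, ⟨t, ht, Or.inl rfl⟩, by ring⟩
  have hAb : Bornology.IsBounded A := by
    rw [Metric.isBounded_iff_subset_closedBall 0]
    refine ⟨2, ?_⟩
    rintro a ⟨t, ht, ha⟩
    have ht' : t ∈ Ioo (0 : ℝ) 1 := ⟨by linarith [ht.1.1], ht.1.2⟩
    obtain ⟨h1, h2⟩ := hf t ht' 0
    rw [mem_closedBall_zero_iff, Real.norm_eq_abs, abs_le]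
    obtain ⟨h3, h4⟩ := ht'
    rcases ha with h | h <;> constructor <;> linarith
  -- the inequality
  apply EReal.le_add_of_forall_gt
  · left
    exact ne_of_gt (lt_of_lt_of_le EReal.bot_lt_zero (EReal.coe_ennreal_nonneg _))
  · left
    simpa using hDtop
  · intro a' ha' b' hb'
    by_contra hcon
    push Not at hcon
    have ha0 : (0 : EReal) < a' := lt_of_le_of_lt (EReal.coe_ennreal_nonneg _) ha'
    have hb1 : b' ≠ ⊥ := ne_of_gt (lt_of_le_of_lt bot_le hb')
    have ha1 : a' ≠ ⊥ := ne_of_gt (lt_of_le_of_lt bot_le ha0)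
    have ha2 : a' ≠ ⊤ := by
      rintro rfl
      rw [EReal.top_add_of_ne_bot hb1] at hcon
      exact absurd hcon not_top_lt
    have hb2 : b' ≠ ⊤ := by
      rintro rfl
      rw [EReal.add_top_of_ne_bot ha1] at hcon
      exact absurd hcon not_top_lt
    lift a' to ℝ using ⟨ha2, ha1⟩
    lift b' to ℝ using ⟨hb2, hb1⟩
    rw [← EReal.coe_add, EReal.coe_lt_coe_iff] at hcon
    have ha0' : 0 < a' := by exact_mod_cast ha0
    obtain ⟨δ₀, hδ₀, hbox⟩ := box_bound hb'
    have hs : a' < 2 * (m : ℝ) + 1 - b' := by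
      push_cast at hcon
      linarith
    have hH : μH[2 * (m : ℝ) + 1 - b'] G = 0 := by
      have h1 : dimH G < ((2 * (m : ℝ) + 1 - b').toNNReal : ℝ≥0∞) := by
        have h2 : (dimH G : EReal) < ((2 * (m : ℝ) + 1 - b' : ℝ) : EReal) :=
          lt_trans ha' (by exact_mod_cast hs)
        have h3 : (((2 * (m : ℝ) + 1 - b').toNNReal : ℝ≥0∞) : EReal) =
            ((2 * (m : ℝ) + 1 - b' : ℝ) : EReal) := by
          have h4 : 0 ≤ 2 * (m : ℝ) + 1 - b' := by linarith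
          rw [← ENNReal.ofReal, EReal.coe_ennreal_ofReal, max_eq_left h4]
        rw [← h3] at h2
        exact_mod_cast h2
      have h5 := hausdorffMeasure_of_dimH_lt h1
      rwa [Real.coe_toNNReal _ (by linarith)] at h5
    exact core hQm hQ0 hAQ hTA hκ hAb hG hδ₀ hbox (by linarith) hH

end Pool.Agent.Results.MP_05d054_an.CubePacking
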